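import Mathlib
import Pool.Agent.CPT.StmtsD

set_option autoImplicit false

/-! Row HTL of the squad CPT. -/

namespace Pool.Agent.CPT.H5

open MvPolynomial Pool.Agent.BSH Pool.Agent.CPT

theorem vdm_mem_sp {E : Type} [Field E] (n r : ℕ) (t : E) (i : Fin n) :
    vdm n r t (X i) ∈ sp E (Set.range X) ([] : List (MvPolynomial (Fin r) E)) := by
  unfold vdm
  rw [aeval_X]
  refine Submodule.sum_mem _ fun j _ => ?_
  rw [← MvPolynomial.smul_eq_C_mul]
  refine Submodule.smul_mem _ _ (Submodule.subset_span (Or.inl (Or.inr ⟨j, rfl⟩)))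

theorem eval_vdm {E : Type} [Field E] (n r t : ℕ) (y : Fin r → E)
    (F : MvPolynomial (Fin n) E) :
    eval y (vdm n r (t : E) F) = eval (fun i : Fin n => ptA r t y i) F := by
  have h : (aeval y : MvPolynomial (Fin r) E →ₐ[E] E).comp (vdm n r (t : E)) =
      aeval (fun i : Fin n => ptA r t y i) := by
    apply MvPolynomial.algHom_ext
    intro i
    rw [AlgHom.comp_apply]
    unfold vdm ptA
    rw [aeval_X, aeval_X, map_sum]
    refine Finset.sum_congr rfl fun j _ => ?_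
    rw [map_mul, aeval_C, aeval_X]
    rfl
  have h2 := congrArg (fun f : MvPolynomial (Fin n) E →ₐ[E] E => f F) h
  exact h2

theorem htl (hBES : BesStmt) (hCND : CndStmt) (hBSL : BslStmt) (hCAL : CalStmt) : HtlStmt := by
  intro E _ _ n s θ F hθ hF hlim
  obtain ⟨A, G, hFG⟩ := hBES E n s F hlim
  obtain ⟨t, ht, hne⟩ := hCND E n (2 * s + 1) A G (by rw [← hFG]; exact hF)
  rw [← hFG] at hne
  have hlim' : IsLim E (2 * s + 1) s (vdm n (2 * s + 1) (t : E) F) :=
    hBSL E n (2 * s + 1) s F (vdm n (2 * s + 1) (t : E)) hlim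
      (fun i => vdm_mem_sp n (2 * s + 1) (t : E) i)
  obtain ⟨c, hc, hev⟩ := hCAL E (2 * s + 1) s θ _ hθ hne hlim'
  refine ⟨t, ht, c, hc, ?_⟩
  rw [eval_vdm] at hev
  exact hev

end Pool.Agent.CPT.H5
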